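import Pool.Agent.X303.MC.Occ
import Pool.Agent.TH192.MT.IdJet

set_option autoImplicit false

/-! # The motivic monodromy conjecture for determinantal forms, and for products of powers of forms over
# ideals with Rees divisors

(A) Determinantal forms. Let `x` be the generic matrix of one of the three spaces `S` of matrices: all `m × n` matrices, the
symmetric `n × n` matrices, the skew symmetric `n × n` matrices (`MSpace`). For `t < T` let
`F_t = ∑_j y_{t,j} M_j(x)`, where the `M_j` are the `p t`-minors of `x` (the Pfaffians of size
`2 (p t)` in the skew symmetric case), `p t < min (m, n)`, `p t < n`, or `2 (p t) + 1 < n`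
(`Small`), and the `y_{t,j}` are further variables, separate for each `t`. Let
`f = ∏ t, F_t ^ a t`, `a t > 0` (`detForm`, with integral coefficients).

The motivic zeta function `Z_f^mot(T) = ∑_{d ≥ 0} [𝒳_{d,1}] 𝕃 ^ (-n d) T ^ d` (`zetaM f Set.univ {1}`) is
defined with the jets, in the Grothendieck ring of varieties over a field `K` of characteristic `0`,
localised at `𝕃`. No resolution is used: the jets are divided by the orders of the ideals of the
minors; where an entry (or, for symmetric and skew symmetric matrices, a principal minor of size `1`
or `2`) is a unit, the Schur complement reduces to a smaller matrix; where `x(0) = 0` one divides by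
`t`, which gives the denominators `1 - 𝕃 ^ (-ν_d) T ^ (N_d)`, `ν_d` the codimension of the matrices of
rank `≤ d` (`≤ 2 d`), `N_d = ∑ t, a t max (p t - d, 0)`; the linear conditions on the jets of `y` give
the denominators `1 - 𝕃 ^ (-1) T ^ (a t)`.

(B) Rees divisors. Let `g t j ∈ ℂ[x_i]`, `t ∈ T`, be generators of ideals `I_t ≠ 0` (no condition on the dimension, on
the number of the ideals or on their zero sets), let `F_t = ∑_j y_{t,j} g t j`, where the `y_{t,j}`
are further variables, separate for each `t` (`blockForm`), and let `f = ∏ t, F_t ^ a t` (`powProd`).
Let `Y` be a log resolution of the product of the `I_t` with `a t > 0`, with the components `E_i`,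
`i ∈ I`, let `k i` be the multiplicity of `E_i` in the relative canonical divisor and `m i t` the order
of `I_t` along `E_i`. Locally on `Y` the form `F_t` is one of the `g t j` times
`y_{t,j} + ∑_{i ≠ j} h_i y_{t,i}`, so it is a monomial times a function whose zero locus is smooth;
these zero loci, for the different `t`, cross each other and the `E_i` normally. Hence `Y` times the
space of the `y` is an embedded resolution of `f`, with the components `E_i`, of multiplicity
`N_i = ∑ t, a t * m i t` (and `ν_i = k i + 1`), and, for `a t > 0`, the strict transform of `F_t = 0`, of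
multiplicity `a t` (and `ν = 1`): `mulR`, `nuR`.

By the formula of Denef and Loeser
`Z_f^mot(T) = ∑_J c_J ∏_{i ∈ J} 𝕃 ^ (-ν_i) T ^ (N_i) / (1 - 𝕃 ^ (-ν_i) T ^ (N_i))` (`dlZ`), where `J` runs over
the sets of components with `N_i > 0`, `c_J ∈ 𝓜_k` is `(𝕃 - 1) ^ (|J| - 1)` times the class of the
covering of the stratum `E_J°` times a power of `𝕃`, for `J ≠ ∅`, and `c_∅` is the term for `d = 0`.
The ring `R` below is a commutative ring with a unit `u`, for example `R = 𝓜_k` with `u = 𝕃`, and the
`c_J ∈ R` are arbitrary; so only the components which occur in a stratum with `c_J ≠ 0` matter.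

The proof for the roots: a functional equation of `f` gives a functional equation of the product of
the powers `I_t ^ a t` of the ideals of the minors, with the same `b` (`locEq_of_powProd`; for one
form and `a = 1` this is one direction of a theorem of Mustata, 2019), and the exceptional divisors
over the rank loci are Rees divisors of this ideal; the roots `-1 / a t` come from the strict
transforms (`strict_root`). For (B): a Rees divisor of the product of the ideals gives roots,
by a residue computation at a general point of `E_i` (`rees_prod`). By the theorem of Malgrange and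
Kashiwara `exp(2 π i a / b)` is a monodromy eigenvalue of `f` at some point of `{f = 0}` if `a / b` is a
root of the Bernstein-Sato polynomial of `f`. -/

namespace Pool.Agent.Results.MP_432c1b_ag.DeterminantalAndRees

open Pool.Agent.H628R4.TP Pool.Agent.TH192.DT Pool.Agent.TH192.MT Pool.Agent.W428.MOT
  Pool.Agent.Y231.RF Pool.Agent.Y228.RR Pool.Agent.X303.MC

/-- **The motivic monodromy conjecture for determinantal forms (A) and for products of powers of
forms over ideals whose exceptional divisors are Rees divisors (B).** (A) For
`f = ∏ t, F_t ^ a t`, `F_t` the forms with the minors of size `p t` of a generic, symmetric or skew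
symmetric matrix as coefficients, the finite set `formPairs S p a` of the pairs `(-ν_d, N_d)` and
`(-1, a t)` has the properties: `c < 0 < e` and `c / e` is a root of every `b` with
`b(s) f ^ s = P(s) f ^ (s + 1)`, in particular of the Bernstein-Sato polynomial of `f`, for all `(c, e)`
in it; and over every field `K` of characteristic `0` the motivic zeta function
`Z_f^mot(T) ∈ 𝓜_K[[T]]`, defined with the jets, lies in the ring generated by `T` and the
`1 / (1 - 𝕃 ^ c T ^ e)`. (B) Let `f = ∏ t, F_t ^ a t`, `F_t = ∑_j y_{t,j} g t j`, and let the numbers
`-ν_i / N_i` of the components `E_i`, `N_i > 0`, which occur in a stratum with `c_J ≠ 0`, come from Rees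
divisors (`FromRees`). Then there is a finite set `P` of pairs `(p, q)`, `p < 0 < q`, such that `p / q`
is a root of every `b` with `b(s) f ^ s = P(s) f ^ (s + 1)`, and such that the series given by the
formula of Denef and Loeser on the resolution described above lies in the ring generated over `R` by
`T` and the `1 / (1 - u ^ p T ^ q)`, `(p, q) ∈ P`.

`FromRees g a H ν N` says that `ν / N = (k_E + 1 + l) / N_E` for a Rees divisor `E` of the product of the
ideals `I_t` with `a t ≠ 0` and a general point of `E` over a point of the affine space at which `H`
does not vanish, where `k_E` is the multiplicity of `E` in the relative canonical divisor, `N_E` is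
the order of `∏ t, I_t ^ a t` along `E`, and `l < N_E` is the order along `E` of some polynomial (for
instance `1`, with `l = 0`; for a component `E_i` which is itself a Rees divisor `E = E_i`, `l = 0`).

`Chart g` is a formal chart of the resolution at a point `p` of a prime divisor `E` over the affine
space: power series `ξ i` (the coordinates `x i` of the affine space), in formal coordinates at `p`
one of which, `z`, is the equation of `E`, whose Jacobian determinant is `z ^ k` times a unit, and
for which each `I_t` becomes `(z ^ m t)`. `E.IsRees A` says that the map from `E` to the product of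
the affine space and of the projective spaces of the generators of the `I_t`, `t ∈ A`, is unramified
at `p`: some functions which together with `z` are formal coordinates at `p` are pull-backs of
polynomials or of quotients `(∑ j, c_j g s j) / g s (j0 s)`, `s ∈ A`. This is so at the general points
of a divisor `E` if and only if `E` is a Rees divisor of the product of the `I_t`, `t ∈ A` (it is not
contracted in the blow-up of the product). -/
theorem result :
    (∀ (S : MSpace) (T : ℕ) (p a : Fin T → ℕ), (∀ t, S.Small (p t)) → (∀ t, 0 < a t) →
      (∀ q ∈ formPairs S p a, q.1 < 0 ∧ 0 < q.2 ∧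
        ∀ b : Polynomial ℂ, IsBFunction (MvPolynomial.map (Int.castRingHom ℂ) (detForm S p a)) b →
          b.eval ((q.1 : ℂ) / q.2) = 0) ∧
      ∀ (K : Type) [Field K] [CharZero K],
        zetaM (MvPolynomial.map (Int.castRingHom K) (detForm S p a)) Set.univ {1} ∈
          ratRing K (formPairs S p a : Set (ℤ × ℤ))) ∧
    ∀ {σ T I : Type} [Fintype σ] [DecidableEq σ] [Fintype T] [DecidableEq T] [Fintype I]
      {κ : T → Type} [∀ t, Fintype (κ t)] [∀ t, DecidableEq (κ t)]
      (g : (t : T) → κ t → MvPolynomial σ ℂ) (_ : ∀ t, ∃ j, g t j ≠ 0) (a : T → ℕ)
      (k : I → ℕ) (m : I → T → ℕ) {R : Type} [CommRing R] (u : Rˣ)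
      (c : Finset {x // 0 < mulR a m x} → R)
      (_ : ∀ (i : I) (hi : 0 < ∑ t, a t * m i t), (∃ J, c J ≠ 0 ∧ ⟨Sum.inl i, hi⟩ ∈ J) →
        FromRees g a 1 (k i + 1) (∑ t, a t * m i t)),
      ∃ P : Finset (ℤ × ℤ), (∀ q ∈ P, q.1 < 0 ∧ 0 < q.2 ∧
        ∀ b : Polynomial ℂ, IsBFunction (powProd a g) b → b.eval ((q.1 : ℂ) / q.2) = 0) ∧
        dlZ u (nuR k T) (mulR a m) c ∈ ratU u (P : Set (ℤ × ℤ)) := by
  refine ⟨fun S T p a hp ha => ⟨fun q hq => ⟨(form_roots S T p a hp ha q hq).1,
    (form_roots S T p a hp ha q hq).2.1, (form_roots S T p a hp ha q hq).2.2.1⟩,
    fun K _ _ => zetaM_mem S T p a hp ha Constr.univ good_one⟩, ?_⟩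
  intro σ T I _ _ _ _ _ κ _ _ g hg a k m R _ u c hE
  exact rees_global g hg a k m u c hE

end Pool.Agent.Results.MP_432c1b_ag.DeterminantalAndRees
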