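import Mathlib
import Pool.Agent.X271.MotBr

/-!
# The motivic monodromy conjecture (strong form) for stably generic polynomials and compositions

Let `k ⊂ ℂ` be a field, `κ ≥ 1`, and let `Φ(x, z)` and `p_1(x), …, p_κ(x)` be polynomials over `k` which
have generic coefficients at given exponents (for instance at the vertices of their Newton
polyhedra) and arbitrary further terms. Under a condition on the facets of ONE Newton polyhedron, the
one of `F = Φ(x, z) + ∑ y_i (z_i - p_i(x))`, the global motivic zeta function of
`f = Φ(x, p_1(x), …, p_κ(x))`, `Z_f(T) = ∑_{d ≥ 0} [X_{d,1}] 𝕃 ^ (- m d) T ^ d`, in the Grothendieck ring of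
varieties over `k` localised at `𝕃`, is in the ring generated by `T` and finitely many
`1 / (1 - 𝕃 ^ a T ^ b)`, where `a < 0 < b` and `a / b` is a root of the Bernstein-Sato polynomial of `f`.
So `exp(2 π i a / b)` is an eigenvalue of the monodromy of `f` (Malgrange, Kashiwara): the motivic
monodromy conjecture holds for these `f`, in the strong form. More generally the same is proved for
every `f` such that `f + y_1 z_1 + ⋯ + y_κ z_κ` becomes a polynomial with generic coefficients by an
automorphism of the polynomial ring.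

Such `f` (for instance `x ^ u ∏ p_i ^ (e_i)`, sums of such products, iterated compositions) are in general
degenerate with respect to their Newton polyhedra in all coordinates, not reduced, and their
singularities are not isolated.

Method. The global zeta function of `f` is an explicit combination of the ones of `F` and `F + y z`; no
resolution is used, and no division in the Grothendieck ring. For polynomials with generic coefficients
the factor `1 - 𝕃⁻¹ T` of the strict transform is separated. The normal fan of `F + y z` is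
computed: its rays are `(a, N_a, 0)` and `(a, 0, N_a)`, the levels go up by one, simplices and
B1-facets in a common direction are preserved, and the non-B1 simplices, which become B1, are treated
with the functional equation of `F` itself.
-/

set_option autoImplicit false

namespace Pool.Agent.Results.MP_432c1b_ag.GenericCompositions

open MvPolynomial Pool.Agent.W428.MOT Pool.Agent.X271.MD Pool.Agent.TH216.HD
open Pool.Agent.W375.MG (zetaW zetaW_eq good_one)

/-- The motivic monodromy conjecture for `f` over `k`, in the strong form, with the finite set `S` of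
pairs `(a, b)` of integers: `b > 0` and `a / b` is a root of every polynomial `b` with
`b(s) f ^ s = P(s) f ^ (s + 1)`, `P(s)` a differential operator in the Weyl algebra, polynomial in `s`
(`IsBFunction`), in particular of the Bernstein-Sato polynomial of `f`; and the zeta function
`zetaW f W` of the jets with origin in `W`, for every constructible set `W`, is in the ring `ratRing k S`
generated over `K₀(Var_k)[𝕃⁻¹]` by `T` and the `1 / (1 - 𝕃 ^ a T ^ b)`, `(a, b) ∈ S`. `W = Set.univ` gives
the motivic zeta function `∑_{d ≥ 0} [X_{d,1}] 𝕃 ^ (-n d) T ^ d` of `f`. -/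
def StrongMC {k : Type} [Field k] [Algebra k ℂ] {n : ℕ} (f : MvPolynomial (Fin n) k)
    (S : Finset (ℤ × ℤ)) : Prop :=
  (∀ p ∈ S, 0 < p.2 ∧ ∀ b : Polynomial ℂ,
    Pool.Agent.H628R4.TP.IsBFunction (map (algebraMap k ℂ) f) b →
      b.eval ((p.1 : ℂ) / p.2) = 0) ∧
  ∀ W : Set (Pt k (Fin n)), Constr W → zetaW f W ∈ ratRing k S

/-- **The motivic monodromy conjecture (strong form) for stably generic polynomials and for
compositions with generic coefficients.**

`InPoly v w`: `w` is in the Newton polyhedron `conv {v j} + ℝ_{≥ 0} ^ N`. `IsRay v a`: `a` spans a ray of the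
normal fan of this polyhedron; `ordA v a = N_a = min_j ⟨a, v j⟩`; `lev v a = |a| / N_a`.

`HypC v h`: for every ray `a` with `N_a > 0` one of the following holds:
* `|a| / N_a = |a'| / N_{a'}` for some `a' ∈ ℕ ^ N` with `N_{a'} > 0` and `NonB1 v False a'`: there is a set
  `J` of `#{i | a' i ≠ 0}` elements with `⟨a', v j⟩ = N_{a'}` for `j ∈ J` such that the vectors
  `(v j i)_{a' i ≠ 0}`, `j ∈ J`, are linearly independent and such that no variable `x_i` with
  `a' i ≠ 0` occurs in exactly one of the monomials `x ^ (v j)`, `j ∈ J`, and there with exponent `1`;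
* `LocC v h σ`, `σ = |a| / N_a`: there is a variable `x_i` such that every ray `a'` with `N_{a'} > 0` and
  `|a'| / N_{a'} = σ` is a simplex (`Simp v h a'`: the vectors `(v j i)_{a' i ≠ 0}`, for the `j` with
  `⟨a', v j⟩ = N_{a'}`, are linearly independent, and the exponents of `h` in this face are in the
  convex hull of the `v j`) or B1 in the direction `i` (`B1Dir v h i a'`: `a' i ≠ 0`, and exactly one of
  the monomials of `v` and `h` of minimal `a'`-weight is divisible by `x_i`; it is some `x ^ (v j0)` with
  `v j0 i = 1`).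

First part (stably generic polynomials). Let the `v j ≠ 0` be different, let the exponents of `h` be
in the Newton polyhedron of the `v j`, and let `HypC v h` hold. There is `g ≠ 0` such that for all
coefficients `c_j ∈ k` with `g(c) ≠ 0`: if `f` is non-constant and `φ` is an automorphism of `k[x, y, z]`
with `φ(f + ∑_{i ≤ κ} y_i z_i) = ∑_j c_j X ^ (v j) + h`, and there is no facet with `|a| = N_a > 0`, then
`StrongMC f S` for a finite set `S`.

Second part (compositions). Let exponents `m_j` of monomials in `x_1, …, x_n, z_1, …, z_κ` be given,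
`j = 1, …, r`, in groups `π j ∈ {0, …, κ}`, `κ ≥ 1`, different in each group, nonzero in the group
`0`, and polynomials `H_0, …, H_κ` over `k`, where the exponents of `H_i` are in the Newton polyhedron
of the `m_j` with `π j = i` or `π j = 0` (`InPolyG π m i`). For `a ∈ k ^ r` let
`tup π m a H i = ∑_{π j = i} a_j X ^ (m_j) + H_i`. `exps π m` are the exponents `m_j`, `π j = 0`, and
`y_i m_j`, `π j = i`, of `Φ + ∑ y_i l_i`, and `sumH H = H_0 + ∑ y_i H_i`. If `HypC (exps π m) (sumH H)` holds then
there is `g ≠ 0` such that for all `a ∈ k ^ r` with `g(a) ≠ 0`: let `Φ = tup π m a H 0` and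
`tup π m a H i = c_i z_i - p_i(x)`, `c_i ≠ 0`, for `i = 1, …, κ`; if
`f(x) = Φ(x, p_1(x) / c_1, …, p_κ(x) / c_κ)` is not constant, then `StrongMC f S` for a finite set `S` of
pairs `(a, b)` with `a < 0 < b`. -/
theorem result (k : Type) [Field k] [Algebra k ℂ] {n κ r : ℕ} (hr : 0 < r) :
    (∀ v : Fin r → Fin (n + (κ + κ)) → ℕ, Function.Injective v → (∀ j, v j ≠ 0) →
      ∀ h : MvPolynomial (Fin (n + (κ + κ))) k, (∀ w ∈ h.support, InPoly v w) → HypC v h →
      ∃ g : MvPolynomial (Fin r) k, g ≠ 0 ∧ ∀ c : Fin r → k, eval c g ≠ 0 →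
      ∀ f : MvPolynomial (Fin n) k, f.totalDegree ≠ 0 →
      ∀ φ : MvPolynomial (Fin (n + (κ + κ))) k ≃ₐ[k] MvPolynomial (Fin (n + (κ + κ))) k,
      φ (stab f κ) = (∑ j, C (c j) * ∏ i, X i ^ v j i) + h →
      (∀ a : Fin (n + (κ + κ)) → ℕ, IsRay v a → 0 < ordA v a → ∑ i, a i ≠ ordA v a) →
      ∃ S : Finset (ℤ × ℤ), StrongMC f S) ∧
    (0 < κ → ∀ (π : Fin r → Fin (κ + 1)) (m : Fin r → Fin (n + κ) → ℕ),
      (∀ j j', π j = π j' → m j = m j' → j = j') → (∀ j, π j = 0 → m j ≠ 0) →
      ∀ H : Fin (κ + 1) → MvPolynomial (Fin (n + κ)) k,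
      (∀ i, ∀ w ∈ (H i).support, InPolyG π m i w) → HypC (exps π m) (sumH H) →
      ∃ g : MvPolynomial (Fin r) k, g ≠ 0 ∧ ∀ a : Fin r → k, eval a g ≠ 0 →
      ∀ (c : Fin κ → k) (p : Fin κ → MvPolynomial (Fin n) k), (∀ i, c i ≠ 0) →
      (∀ i : Fin κ, tup π m a H i.succ = C (c i) * X (Fin.natAdd n i) -
        rename (Fin.castAdd κ) (p i)) →
      ∀ f : MvPolynomial (Fin n) k,
      f = aeval (Fin.append X fun i => C (c i)⁻¹ * p i) (tup π m a H 0) → f.totalDegree ≠ 0 →
      ∃ S : Finset (ℤ × ℤ), (∀ p ∈ S, p.1 < 0) ∧ StrongMC f S) := by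
  have hid : ∀ f : MvPolynomial (Fin n) k, map (algebraMap k k) f = f := by
    intro f
    rw [Algebra.algebraMap_self, MvPolynomial.map_id]
  refine ⟨fun v hv hv0 h hh hC => ?_, fun hκ π m hinj hm H hH hC => ?_⟩
  · obtain ⟨g, hg, hgc⟩ := stable hr v hv hv0 h hh hC
    refine ⟨g, hg, fun c hc f hf φ hφ h1 => ?_⟩
    obtain ⟨S, hS, hz⟩ := hgc c hc f hf φ hφ h1
    refine ⟨S, hS, fun W hW => ?_⟩
    have h2 := hz k W {1} hW good_one
    rwa [hid, ← zetaW_eq] at h2
  · obtain ⟨g, hg, hgc⟩ := comps hr hκ π m hinj hm H hH hC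
    refine ⟨g, hg, fun a ha c p hc hl f hff hf => ?_⟩
    obtain ⟨S, hS, hz⟩ := hgc a ha c p hc hl f hff hf
    refine ⟨S, fun p hp => (hS p hp).1, fun p hp => (hS p hp).2, fun W hW => ?_⟩
    have h2 := hz k W {1} hW good_one
    rwa [hid, ← zetaW_eq] at h2

end Pool.Agent.Results.MP_432c1b_ag.GenericCompositions
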