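import Mathlib
import Pool.Agent.X271.NdThm

/-!
# The motivic monodromy conjecture for nondegenerate compositions

Let `k ⊂ ℂ` be a field and let `f(x) = Φ(x, p_1(x) / c_1, …, p_κ(x) / c_κ)`, where `Φ(x, z)` and
`p_1(x), …, p_κ(x)` are polynomials over `k` such that `G = Φ(x, z) + ∑_i y_i (c_i z_i - p_i(x))` is
nondegenerate with respect to its Newton polytope: for every face of the polytope, the face
polynomial and its derivatives have no common zero in the complex torus. No further genericity is
assumed. Every candidate pole `-|a| / N_a` of the facets of the Newton polyhedron of `G` is assumed to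
be an integer, or to agree modulo integers with the one of a face which contains a simplex which is
not of type `B1`, or all the facets with this candidate pole are simplices or `B1`-facets in one common
direction. Then the motivic monodromy conjecture holds for `f`: the motivic zeta function of `f`, in
the Grothendieck ring of varieties over `k` localised at `𝕃`, lies in the ring generated by `T` and
finitely many `1 / (1 - 𝕃 ^ a T ^ b)` with `a < 0 < b` such that `a / b - i` is a root of the
Bernstein-Sato polynomial of `f` for an integer `i`; by the theorem of Malgrange and Kashiwara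
`exp(2 π i a / b)` is an eigenvalue of the monodromy of `f` at some point of `{f = 0}`. The same holds,
with the same pairs `(a, b)`, if only the jets with origin in a constructible set `W` are counted.

For `κ = 0` these are the nondegenerate polynomials (the starting result
`NondegenerateSimplicialOrB1`). For `κ > 0` they are in general degenerate with respect to their
Newton polytopes, in all coordinates, not reduced and with nonisolated singularities: products of
powers `x ^ u ∏_i p_i ^ (e_i)` of the members of a nondegenerate system (`Φ` a monomial), sums of such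
products, `p ^ 2 + q ^ 3`, … Here the condition is an explicit open condition on the coefficients,
in contrast to the theorem `GenericCompositions` of this problem, where the coefficients are generic,
and not only the level `|a| / N_a` itself, but its class modulo integers is used.

First part: the polynomial `f` need not be a composition, but `f + y_1 z_1 + ⋯ + y_κ z_κ` becomes by an
automorphism of the polynomial ring a nondegenerate polynomial `G`; this contains iterated
compositions such as `((x_2 ^ 2 - x_1 ^ 3) ^ 2 - x_1 ^ 5 x_2) ^ 2 + …`.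

Method. If `G` is nondegenerate, so is `G + y z`. The normal fan of `G + y z` is computed: its rays are
`(a, N_a, 0)` and `(a, 0, N_a)`, its levels go up by one, and simplices and B1-facets in one common
direction are preserved. The zeta function of `f` is an explicit combination of those of `G` and
`G + y z`. A functional equation of `f` with `(s + 1) c(s)` gives those of `G` and `G + y z` with
`(s + 1) c(s + κ)`, `(s + 1) c(s + κ + 1)`; these are deformed to very general coefficients
(Kouchnirenko's theorem), and the algebraic relations obtained become multiplicative identities of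
series, which show that the factors `1 - 𝕃 ^ (- |a|) T ^ (N_a)` cancel in `(1 - 𝕃⁻¹ T) Z_G(T)` if no
`-|a| / N_a - i` is a root.
-/

set_option autoImplicit false

namespace Pool.Agent.Results.MP_432c1b_ag.NondegenerateCompositions

open MvPolynomial Pool.Agent.W428.MOT Pool.Agent.TH216.HD
open Pool.Agent.X271.MD (stab exps)
open Pool.Agent.X271.ND (HypCV ComV grp)
open Pool.Agent.W375.MG (zetaW zetaW_eq good_one)

/-- The motivic monodromy conjecture for `f` over `k`, with the finite set `S` of pairs `(a, b)` of
integers: `a < 0 < b`, and for every polynomial `b` with `b(s) f ^ s = P(s) f ^ (s + 1)`, `P(s)` a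
differential operator in the Weyl algebra, polynomial in `s` (`IsBFunction`), in particular for the
Bernstein-Sato polynomial of `f`, the number `a / b - i` is a root of `b` for some integer `i` (so that
`exp(2 π i a / b)` is an eigenvalue of the monodromy of `f`, by Malgrange and Kashiwara); and the zeta
function `zetaW f W` of the jets with origin in `W`, for every constructible set `W`, is in the ring
`ratRing k S` generated over `K₀(Var_k)[𝕃⁻¹]` by `T` and the `1 / (1 - 𝕃 ^ a T ^ b)`, `(a, b) ∈ S`.
`W = Set.univ` gives the motivic zeta function `∑_{d ≥ 0} [X_{d,1}] 𝕃 ^ (-n d) T ^ d` of `f`. -/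
def WeakMC {k : Type} [Field k] [Algebra k ℂ] {n : ℕ} (f : MvPolynomial (Fin n) k)
    (S : Finset (ℤ × ℤ)) : Prop :=
  (∀ p ∈ S, p.1 < 0 ∧ 0 < p.2 ∧ ∀ b : Polynomial ℂ,
    Pool.Agent.H628R4.TP.IsBFunction (map (algebraMap k ℂ) f) b →
      ∃ i : ℤ, b.eval ((p.1 : ℂ) / p.2 - i) = 0) ∧
  ∀ W : Set (Pt k (Fin n)), Constr W → zetaW f W ∈ ratRing k S

/-- **The motivic monodromy conjecture for stably nondegenerate polynomials and for nondegenerate
compositions.**

`Nondegenerate v c` says that for every face of the convex hull of the `v j` (the face where the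
linear form `w ∈ ℝ ^ N` is minimal) the face polynomial of `∑_j c_j X ^ (v j)` and its derivatives
`x_i ∂_i` have no common zero in `(ℂ \ 0) ^ N`. `V` is a set of exponents such that all the exponents are
in `conv {v j, j ∈ V} + ℝ_{≥ 0} ^ N` (`Spans v V`), for instance the set of the vertices of the Newton
polyhedron. `IsRay v a`: `a` spans a ray of the normal fan of this polyhedron;
`ordA v a = N_a = min_j ⟨a, v j⟩`; `lev v a = |a| / N_a`.

`HypCV False v V` says that for every ray `a` with `N_a > 0` one of the following holds:
* `N_a` divides `|a|`;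
* `|a| / N_a - |a'| / N_{a'} ∈ ℤ` for some `a' ∈ ℕ ^ N` with `N_{a'} > 0` and `NonB1 v False a'`: there is a
  set `J` of `#{i | a' i ≠ 0}` elements with `⟨a', v j⟩ = N_{a'}` for `j ∈ J` such that the vectors
  `(v j i)_{a' i ≠ 0}`, `j ∈ J`, are linearly independent and such that no variable `x_i` with
  `a' i ≠ 0` occurs in exactly one of the monomials `x ^ (v j)`, `j ∈ J`, and there with exponent `1`;
* `ComV v V σ` for `σ = |a| / N_a`: there is a variable `x_i` such that each ray `a'` with `N_{a'} > 0` and
  `|a'| / N_{a'} = σ` is a simplex (`SimpV v V a'`: the vectors `(v j i)_{a' i ≠ 0}`, for the `j ∈ V` with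
  `⟨a', v j⟩ = N_{a'}`, are linearly independent, and all the `v j` with `⟨a', v j⟩ = N_{a'}` are in the
  convex hull of the `v k`, `k ∈ V`) or B1 in the direction `i` (`B1V v i a'`: `a' i ≠ 0`, and exactly one
  of the monomials `x ^ (v j)` with `⟨a', v j⟩ = N_{a'}` is divisible by `x_i`, and it is not divisible by
  `x_i ^ 2`).

First part (stably nondegenerate polynomials). Let `G = ∑_j c_j X ^ (v j)`, `c_j ≠ 0`, with different
`v j ≠ 0` be nondegenerate with `HypCV False v V`, and let `φ` be an automorphism of `k[x, y, z]` with
`φ(f + ∑_{i ≤ κ} y_i z_i) = G` (`stab f κ = f + ∑ y_i z_i`), `f` non-constant. If `κ N_a < |a|` for all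
rays `a` with `N_a > 0`, then `WeakMC f S` for a finite set `S`.

Second part (compositions). Let exponents `m_j` of monomials in `x_1, …, x_n, z_1, …, z_κ` be given,
`j = 1, …, r`, in groups `π j ∈ {0, …, κ}`, different in each group, nonzero in the group `0`, and
coefficients `a_j ≠ 0`. Let `grp π m a i = ∑_{π j = i} a_j X ^ (m_j)`, `Φ = grp π m a 0`,
`grp π m a i = c_i z_i - p_i(x)`, `c_i ≠ 0`, for `i = 1, …, κ`, and let
`f(x) = Φ(x, p_1(x) / c_1, …, p_κ(x) / c_κ)` be non-constant. The exponents of
`G = Φ + ∑_i y_i (c_i z_i - p_i(x))` are `exps π m` (`m_j` for `π j = 0` and `y_i m_j` for `π j = i`). If `G` is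
nondegenerate and `HypCV False (exps π m) V` holds, then `WeakMC f S` for a finite set `S`. -/
theorem result (k : Type) [Field k] [Algebra k ℂ] {n κ r : ℕ} (hr : 0 < r)
    (V : Finset (Fin r)) :
    (∀ (v : Fin r → Fin (n + (κ + κ)) → ℕ) (c : Fin r → k), Function.Injective v →
      (∀ j, v j ≠ 0) → (∀ j, c j ≠ 0) → Nondegenerate v (fun j => algebraMap k ℂ (c j)) →
      Spans v V → HypCV False v V →
      ∀ f : MvPolynomial (Fin n) k, f.totalDegree ≠ 0 →
      ∀ φ : MvPolynomial (Fin (n + (κ + κ))) k ≃ₐ[k] MvPolynomial (Fin (n + (κ + κ))) k,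
      φ (stab f κ) = ∑ j, C (c j) * ∏ i, X i ^ v j i →
      (∀ a : Fin (n + (κ + κ)) → ℕ, IsRay v a → 0 < ordA v a → κ * ordA v a < ∑ i, a i) →
      ∃ S : Finset (ℤ × ℤ), WeakMC f S) ∧
    (∀ (π : Fin r → Fin (κ + 1)) (m : Fin r → Fin (n + κ) → ℕ) (a : Fin r → k),
      (∀ j j', π j = π j' → m j = m j' → j = j') → (∀ j, π j = 0 → m j ≠ 0) →
      (∀ j, a j ≠ 0) → Nondegenerate (exps π m) (fun j => algebraMap k ℂ (a j)) →
      Spans (exps π m) V → HypCV False (exps π m) V →
      ∀ (c : Fin κ → k) (p : Fin κ → MvPolynomial (Fin n) k), (∀ i, c i ≠ 0) →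
      (∀ i : Fin κ, grp π m a i.succ = C (c i) * X (Fin.natAdd n i) -
        rename (Fin.castAdd κ) (p i)) →
      ∀ f : MvPolynomial (Fin n) k,
      f = aeval (Fin.append X fun i => C (c i)⁻¹ * p i) (grp π m a 0) → f.totalDegree ≠ 0 →
      ∃ S : Finset (ℤ × ℤ), WeakMC f S) := by
  have hid : ∀ f : MvPolynomial (Fin n) k, map (algebraMap k k) f = f := by
    intro f
    rw [Algebra.algebraMap_self, MvPolynomial.map_id]
  refine ⟨fun v c hv hv0 hc hnd hV hC f hf φ hφ hpos => ?_,
    fun π m a hinj hm ha hnd hV hC c p hc hl f hff hf => ?_⟩
  · obtain ⟨S, hS, hz⟩ := Pool.Agent.X271.ND.stableG hr v hv hv0 c hc hnd V hV hC f hf φ hφ hpos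
    refine ⟨S, hS, fun W hW => ?_⟩
    have h2 := hz k W {1} hW good_one
    rwa [hid, ← zetaW_eq] at h2
  · obtain ⟨S, hS, hz⟩ := Pool.Agent.X271.ND.compG hr π m hinj hm a ha hnd V hV hC c p hc hl f
      hff hf
    refine ⟨S, hS, fun W hW => ?_⟩
    have h2 := hz k W {1} hW good_one
    rwa [hid, ← zetaW_eq] at h2

end Pool.Agent.Results.MP_432c1b_ag.NondegenerateCompositions
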