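import Mathlib
import Pool.Agent.X271.RefThm

/-!
# The motivic monodromy conjecture for hypersurfaces: reduction to cubics

Let `k` be a subfield of `ℂ`. We prove that the motivic monodromy conjecture for the global motivic zeta
functions, in the strong form and with the refinement that the factor `1 - 𝕃⁻¹ T` of the smooth
points is separated, for all polynomials over `k` (all degrees, all numbers of variables) is EQUIVALENT
to the same statement for the cubic polynomials `x_0 + ∑_j t_j q_j(x)` with `q_j` of degree at most two,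
that is, for coordinate functions restricted to intersections of quadrics. It implies the conjecture
Q1 for all non-constant polynomials over `k`.

Refined property of `f`: there is a finite set `S` of pairs `(a, b)`, `a / b` a root of
`b_f(s) / (s + 1)`, such that `(1 - 𝕃⁻¹ T) Z_f(T)` is in the ring generated by `T` and the
`1 / (1 - 𝕃 ^ a T ^ b)`, `(a, b) ∈ S`. (By the strong monodromy conjecture with the orders of the poles,
at `-1`.) The separation of the factor is needed because `K₀(Var)[𝕃⁻¹]` is not a domain: a pole
cannot be moved by division.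

Method. Every polynomial `f` becomes such a cubic by adding products `y_i z_i` of new variables and
an automorphism of the polynomial ring (moves `F ↦ F + (y - a)(z + e)`). The zeta function of `f` is
an explicit combination of those of `f + y z` and of `f + y z + y' z'`, without resolution of
singularities and without division; and a functional equation of `f` with `b(s) = (s + 1) c(s)`
gives one of `f + y z` with `(s + 1) c(s + 1)`.
-/

set_option autoImplicit false

namespace Pool.Agent.Results.MP_432c1b_ag.ReductionToCubics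

open MvPolynomial Pool.Agent.W428.MOT Pool.Agent.X271.RD
open Pool.Agent.W375.MG (zetaW zetaW_eq good_one)

/-- The motivic monodromy conjecture for `f` over `k`, in the strong form, with the finite set `S` of
pairs `(a, b)` of integers: `b > 0` and `a / b` is a root of every polynomial `b` with
`b(s) f ^ s = P(s) f ^ (s + 1)`, `P(s)` a differential operator in the Weyl algebra, polynomial in `s`
(`IsBFunction`), in particular of the Bernstein-Sato polynomial of `f`; and the motivic zeta function
`zetaW f univ = ∑_{d ≥ 0} [X_{d,1}] 𝕃 ^ (-n d) T ^ d` is in the ring `ratRing k S`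
generated over `K₀(Var_k)[𝕃⁻¹]` by `T` and the `1 / (1 - 𝕃 ^ a T ^ b)`, `(a, b) ∈ S`. -/
def StrongMC {k : Type} [Field k] [Algebra k ℂ] {n : ℕ} (f : MvPolynomial (Fin n) k)
    (S : Finset (ℤ × ℤ)) : Prop :=
  (∀ p ∈ S, 0 < p.2 ∧ ∀ b : Polynomial ℂ,
    Pool.Agent.H628R4.TP.IsBFunction (map (algebraMap k ℂ) f) b →
      b.eval ((p.1 : ℂ) / p.2) = 0) ∧
  zetaW f Set.univ ∈ ratRing k S

/-- The refined property of `f`: there is a finite set `S` of pairs `(a, b)` with `b > 0` and `a / b` a
root of `b_f(s) / (s + 1)` (`RedRoot`: a root of every `c` for which `(s + 1) c(s)` satisfies a functional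
equation for `f`), such that `(1 - 𝕃⁻¹ T) Z_f(T)` is in `ratRing k S`, for the global motivic zeta
function `Z_f = zetaW f univ`; and, if `A` holds, for the zeta functions `zetaW f W` of the jets with
origin in `W`, for all constructible sets `W`. -/
def Refined (A : Prop) {k : Type} [Field k] [Algebra k ℂ] {n : ℕ} (f : MvPolynomial (Fin n) k) :
    Prop :=
  ∃ S : Finset (ℤ × ℤ), (∀ p ∈ S, 0 < p.2 ∧ RedRoot f ((p.1 : ℂ) / p.2)) ∧
    ∀ W : Set (Pt k (Fin n)), Constr W → (A ∨ W = Set.univ) →
      fac k * zetaW f W ∈ ratRing k S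

/-- **The motivic monodromy conjecture for hypersurfaces: transfer and reduction to cubics.**

`A = False`: the global zeta function; `A = True`: also all constructible sets of origins.

* Part 1. If a non-constant polynomial `f` over `k` has the refined property, then `StrongMC f S` for
  some finite `S`.
* Part 2 (transfer). Let `F₁` be `f(x) + ∑_{i ≤ κ} y_i z_i` (`stab f κ`) and `F₂` be
  `f(x) + ∑_{i ≤ κ + 1} y_i z_i` after automorphisms of the polynomial rings. If `F₁` and `F₂` have the
  refined property, then the non-constant polynomial `f` has it.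
* Part 3. The refined property of all non-constant polynomials over `k` is equivalent to the refined
  property of the cubics `cubic q = x_0 + ∑_j t_j q_j(x)`, `x = (x_0, …, x_n)`, `deg q_j ≤ 2`. -/
theorem result (k : Type) [Field k] [Algebra k ℂ] (A : Prop) :
    (∀ (n : ℕ) (f : MvPolynomial (Fin n) k), f.totalDegree ≠ 0 → Refined A f →
      ∃ S : Finset (ℤ × ℤ), StrongMC f S) ∧
    (∀ (n κ : ℕ) (f : MvPolynomial (Fin n) k), f.totalDegree ≠ 0 →
      ∀ (Φ₁ : MvPolynomial (Fin (n + (κ + κ))) k ≃ₐ[k] MvPolynomial (Fin (n + (κ + κ))) k)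
        (Φ₂ : MvPolynomial (Fin (n + (κ + 1 + (κ + 1)))) k ≃ₐ[k]
          MvPolynomial (Fin (n + (κ + 1 + (κ + 1)))) k),
      Refined A (Φ₁ (stab f κ)) → Refined A (Φ₂ (stab f (κ + 1))) → Refined A f) ∧
    ((∀ (n : ℕ) (f : MvPolynomial (Fin n) k), f.totalDegree ≠ 0 → Refined A f) ↔
      ∀ (n l : ℕ) (q : Fin l → MvPolynomial (Fin (n + 1)) k), (∀ j, (q j).totalDegree ≤ 2) →
        Refined A (cubic q)) := by
  classical
  have hid : ∀ (n : ℕ) (f : MvPolynomial (Fin n) k), map (algebraMap k k) f = f := by
    intro n f
    rw [Algebra.algebraMap_self, MvPolynomial.map_id]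
  have hR : ∀ (n : ℕ) (f : MvPolynomial (Fin n) k),
      Refined A f ↔ Pool.Agent.X271.RC.RefF A {1} n f := by
    intro n f
    unfold Refined Pool.Agent.X271.RC.RefF
    simp only [zetaW_eq, hid]
  have hE : Pool.Agent.Y229.MS.CE ({1} : Set (AlgebraicClosure k)) :=
    Pool.Agent.Y229.MS.ce_good good_one
  refine ⟨fun n f hf h => ?_, fun n κ f hf Φ₁ Φ₂ h1 h2 => ?_, ?_⟩
  · obtain ⟨S, hS, hz⟩ := h
    refine ⟨insert (-1, 1) S, fun p hp => ?_, ?_⟩
    · rcases Finset.mem_insert.1 hp with rfl | hp
      · refine ⟨by norm_num, fun b hb => ?_⟩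
        have h1 := (Pool.Agent.X271.RC.root_of_red hf hb).1
        have h2 : (((-1 : ℤ) : ℂ) / ((1 : ℤ) : ℂ)) = -1 := by norm_num
        simp only [h2]
        exact h1
      · exact ⟨(hS p hp).1, fun b hb => (Pool.Agent.X271.RC.root_of_red hf hb).2 _ (hS p hp).2⟩
    · have h3 : Constr (Set.univ : Set (Pt k (Fin n))) := Pool.Agent.W428.MOT.Constr.univ
      have h1 := hz Set.univ h3 (Or.inr rfl)
      rw [zetaW_eq] at h1 ⊢
      have h2 := Pool.Agent.Y229.MS.zeta_of_fst _ _ _ _ h1
      rwa [Finset.coe_insert]
  · rw [hR] at h1 h2 ⊢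
    exact Pool.Agent.X271.RC.transfer (fun n f => Pool.Agent.X271.RC.RefF A {1} n f)
      (fun a b Φ hab g hg => Pool.Agent.X271.RC.refF_iso hE hab Φ hg)
      (fun n f hf h1 h2 => Pool.Agent.X271.RC.refF_desc hE hf h1 h2) f hf κ Φ₁ Φ₂ h1 h2
  · simp only [hR]
    exact Pool.Agent.X271.RC.refF_cubic hE

end Pool.Agent.Results.MP_432c1b_ag.ReductionToCubics
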